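import Pool.Agent.U188.MF.Num

/-!
# Lang's strong conjecture in the direction of the base of the moduli fibration

`X` is an integral projective variety over the number field `k`, a subfield of the complex numbers, of
dimension `w`. It is given by its function field `K` and the homogeneous coordinates `x` of its generic
point; `coords k x = ⊤` says that `K` is generated by the ratios of the coordinates. `L` is a field which
contains `K` and the complex numbers (compatibly over `k`) and is generated over the complex numbers by
the ratios of the coordinates: for instance the function field of any irreducible component `X'` of the
complex variety `X_ℂ` (which is irreducible if `X` is geometrically integral).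

`f = p / q` is **any** rational map of the projective line over `K` of degree `d ≥ 2`, and `prePer d p q`
the set of its preperiodic points in `P^1(K)`. Nothing is assumed about its variation: in the starting
results (`OneSetForPointsAndCurves` and others) the moduli map `X ⇢ M_d` had to be generically finite.

**The moduli fibration** `X ⇢ Y` of `f` is given by the function field `E` of its base `Y`
(`ModuliFibration d p q E`): its general fibres are irreducible, `f` is conjugate over `K` to a map over
`E`, its preperiodic points descend too, and `E` is contained in the algebraic closure of every field
over which `f` is defined up to conjugation. Its base has the dimension `v`, the variation of `f`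
(`IsVariation`).

**The theorem.** There are numbers `B₀` and `B D ε`, which only depend on `d`, such that the following
holds for all `k`, `X` and `f` with at least `n ≥ B₀` preperiodic points in `P^1(K)`. The moduli
fibration exists, `Y` is a point or of general type, and if `g = (g 0 : g 1 : ...)` is a rational map on
`X`, given by forms over `k` of the same degree, which factors through `Y` (the ratios are in `E`; for
instance `X ⇢ Y` for any projective model of `Y`), there is **one** proper closed subset `Z`, `R = 0`,
of `X'` with these properties.

* `g` is constant on every special subvariety of `X'` which is not contained in `Z`, and on the image of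
  every meromorphic map from a space `ℂ ^ m` to `X'` which is not contained in `Z` (`Contracts`, see
  `Pool/Agent/U188/MF/Ana.lean`); in particular on all entire curves and on all subvarieties which are
  birational to abelian varieties or rationally connected.
* For all degrees `D` and all `ε > 0` with `B D ε ≤ n` the points of `X` off `Z` of absolute height at
  most `T`, over all number fields of degree at most `D` which contain `k`, have at most `C T ^ (κ ε)`
  images under `g` (`imagePts`): they lie in so few fibres. Here `κ` is the degree of forms `F s` on `X`
  whose values are, up to a common factor `t`, the coefficients `cfv d p q` of `f`.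

If `v = w`, then `g` can be the identity and we get statements on the points and subvarieties of `X`
itself. In general `X` need not be of general type; it maps to the variety `Y` of general type, and the
theorem is the part of Lang's conjecture (points, special subvarieties and entire curves are degenerate)
which concerns `X ⇢ Y`, with one exceptional set for the arithmetic and the analytic part.

`IsPt x a`: all forms over `k` which vanish at `x` vanish at `a`. `mulHeight` is the multiplicative
height over `L`, so that `mulHeight a ≤ T ^ [L : ℚ]` says that the absolute height is at most `T`.

Proof. Library theorems: the descent to `E` and the general type of `Y` (`Pool/Agent/Q103/VR`), the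
sparsity of the images of the points (`Pool/Agent/Q103/RP/Stm.lean`), the hyperbolicity of the varieties
with many preperiodic points and generically finite moduli map (`Pool/Agent/Q103/EC`). New here
(`Pool/Agent/U188/MF`): the complex base and its hyperbolicity for all projective models, the projective
models of the base by forms on `X`, the transfer of special subvarieties and meromorphic maps to the
base, the common exceptional set.
-/

set_option autoImplicit false

namespace Pool.Agent.Results.MP_7ede32_ag.ModuliFibrations

open Polynomial
open Pool.Agent.W602.GT
open Pool.Agent.Q103.EC (prePer)
open Pool.Agent.Q103.VR
open Pool.Agent.Q103.RP (cfv)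
open Pool.Agent.U188.MF (Contracts imagePts)

/-- **The moduli fibration of any map with many preperiodic points over a number field**: off one proper
closed subset the special subvarieties and the meromorphic images of `ℂ ^ m` lie in fibres, and the
points of bounded degree lie in few fibres. -/
theorem result (d : ℕ) (hd : 2 ≤ d) : ∃ (B₀ : ℕ) (B : ℕ → ℝ → ℕ),
    ∀ (k : Type) [Field k] [NumberField k] [Algebra k ℂ] (K : Type) [Field K] [Algebra k K] (M : ℕ)
      (x : Fin (M + 1) → K), x ≠ 0 → coords k x = ⊤ → ∀ w : ℕ, Algebra.trdeg k K = w →
      ∀ (n : ℕ) (p q : K[X]), B₀ ≤ n → IsCoprime p q → max p.natDegree q.natDegree = d →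
      (n : ℕ∞) ≤ (prePer d p q).encard →
      ∃ (E : IntermediateField k K) (v : ℕ), ModuliFibration d p q E ∧ v ≤ w ∧
        Algebra.trdeg k E = v ∧ IsVariation k d p q v ∧ (1 ≤ v → GeneralType k E v) ∧
        ∀ (κ : ℕ) (F : Fin 2 × Fin (d + 1) → MvPolynomial (Fin (M + 1)) k) (t : K),
        (∀ s, (F s).IsHomogeneous κ) → t ≠ 0 → (∀ s, cfv d p q s = t * val x (F s)) →
        ∀ (r e : ℕ) (g : Fin (r + 1) → MvPolynomial (Fin (M + 1)) k),
        (∀ j, (g j).IsHomogeneous e) → val x (g 0) ≠ 0 →
        (∀ j, val x (g j) / val x (g 0) ∈ E) →
        ∀ (L : Type) [Field L] [Algebra ℂ L] [Algebra K L] [Algebra k L] [IsScalarTower k K L]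
          [IsScalarTower k ℂ L], coords ℂ (fun i => algebraMap K L (x i)) = ⊤ →
        ∃ R : MvPolynomial (Fin (M + 1)) ℂ, Contracts (fun i => algebraMap K L (x i))
            (fun j => MvPolynomial.map (algebraMap k ℂ) (g j)) R ∧
          ∀ (D : ℕ) (ε : ℝ), 0 < ε → B D ε ≤ n → ∃ C : ℝ, ∀ T : ℝ, 1 ≤ T →
            (imagePts k x R g D T).Finite ∧
            ((imagePts k x R g D T).ncard : ℝ) ≤ C * T ^ (κ * ε) :=
  Pool.Agent.U188.MF.num d hd

end Pool.Agent.Results.MP_7ede32_ag.ModuliFibrations
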