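import Pool.Agent.U218.NH.Gen
import Pool.Agent.U218.NH.Sig

/-!
# Varieties of general type, of every dimension, all of whose points have degree divisible by `M`

Let `K` be a number field, `f ∈ K[T]` a separable polynomial of degree `d` with leading coefficient `c`,
and let `r ≥ 1`.  The norm form
`N_f(x_0, …, x_r) = c^r ∏_{f(θ) = 0} (x_0 + θ x_1 + θ² x_2 + ⋯ + θ^r x_r)`
(for irreducible monic `f` this is `N_{L/K}(x_0 + θ x_1 + ⋯ + θ^r x_r)` with `L = K(θ)`) is the resultant
of `f` and `x_0 + x_1 T + ⋯ + x_r T^r`.  Its zeros are `d` hyperplanes in general position.  For a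
divisor `n` of `d` and `a ∈ K`, `a ≠ 0`, let

  `V_a : a yⁿ = N_f(x_0, …, x_r)`

be the cyclic covering of degree `n` of the projective space `P^r` branched along these hyperplanes (a
curve `a yⁿ = f(x)` for `r = 1`, a hypersurface of degree `d` in `P^(r+1)` for `n = d`).

**Theorem.**  (1) If `(n - 1) d / n ≥ r + 2`, then `V_a`, and every variety of dimension `r` with a
dominant rational map to `V_a` (for instance a resolution of singularities, or any smooth open subset) is
of general type.

(2) Let `M` divide `d`, and suppose that for some `σ ∈ G_K = Gal(K̄/K)` the lengths `o` of all cycles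
of `σ` on the roots of `f` have the property that `M` divides `o / gcd(o, j)` for `j = 1, …, r`; if `M` has
no prime factor `≤ r` this means that all the lengths are divisible by `M`.  Then for all `a ∈ O_K`
outside a set of density zero the following holds for all `n` divisible by `M`: if `V_a` has a point
over an algebraic extension `L` of `K`, then `L` contains a finite extension of `K` of degree divisible
by `M`.  That is, the degrees of all closed points of `V_a` are divisible by `M`, and `V_a(L) = ∅` for all
number fields `L ⊇ K` such that `M` does not divide `[L : K]`.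

(3) The condition in (2) holds for all irreducible `f` whose degree is a power of a prime number
`M > r`.  It also holds, for instance, if the Galois group of `f` contains a cycle of length `d = M` and
no prime number `≤ r` divides `d`; then for `n = d = M` and almost all `a` the degrees of all closed
points of the hypersurface `V_a` are divisible by its degree `d`, so the index of `V_a` is exactly `d`.

So Lang's strong conjecture holds for almost all of these varieties of general type over all number
fields `L` whose degree over `K` is not divisible by `M`, where `M` can be arbitrarily large, with the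
same exceptional set `Z = ∅` for all these fields: `V_a(L)` is not only finite but empty.  The condition
on the degree of `L` cannot be dropped, as there are points over `K(a^(1/n))`.

Example: `f` irreducible of prime degree `p ≥ r + 3`.  Then for almost all `a ∈ O_K` the hypersurface
`a y^p = N_f(x_0, …, x_r)` of degree `p` in `P^(r+1)` is of general type and has no point over all number
fields `L ⊇ K` of degree `< p`, nor over all `L` of degree prime to `p`, nor over the fixed field of a
`p`-Sylow subgroup of `G_K`.

Proof of (1): the `r`-forms `x_i x_0^(e-1) d(x_1/x_0) ∧ … ∧ d(x_r/x_0) / y^(n-1)`, `e = (n - 1) d/n - r - 1`,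
are regular at all divisors: if the hyperplanes `ℓ_1, …, ℓ_s` are the ones through the centre, then
`s ≤ r`, these forms are linearly independent, and the determinant of logarithmic derivatives has at most
a simple pole, while `n` divides the order of `ℓ_1 ⋯ ℓ_s`.

Proof of (2): by the theorem of Chebotarev and Frobenius there are many primes `v` of `K` (the sum of
the inverse norms diverges) whose Frobenius permutes the roots of `f` modulo `v` as `σ`.  Let `v(a) = 1`
for such a prime, and let `w` be a prime above `v` of a finite extension `L/K` over which `V_a` has a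
point, with ramification index `e` and residue degree `m`.  If `M ∤ m`, then no root of `f` modulo `v` has
degree `≤ r` over the residue field of `w`, so `N_f` has no zero over this field, and `w(N_f(x)) ∈ d ℤ`.
Hence `e + n w(y) ∈ d ℤ` and `M ∣ e`.  So `M` divides `e m` for all primes `w` above `v`, and therefore
`M` divides `[L : K] = ∑ e m`.  Almost all `a` satisfy `v(a) = 1` for one of these primes.
-/

open Polynomial NumberField

namespace Pool.Agent.Results.MP_7ede32_ag.PointsOfDivisibleDegree

/-- The norm form `N_f(x_0, …, x_r) = c^r ∏_{f(θ) = 0} (x_0 + θ x_1 + ⋯ + θ^r x_r)`, `c` the leading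
coefficient of `f`, defined as the resultant of `f` and `x_0 + x_1 T + ⋯ + x_r T^r`. -/
noncomputable def normForm {L : Type} [Field L] (f : L[X]) {r : ℕ} (x : Fin (r + 1) → L) : L :=
  resultant f (∑ i : Fin (r + 1), C (x i) * X ^ (i : ℕ)) f.natDegree r

/-- `V_a : a yⁿ = N_f(x_0, …, x_r)` has a point over `L`. -/
def HasPoint (r n : ℕ) {L : Type} [Field L] (a : L) (f : L[X]) : Prop :=
  ∃ (x : Fin (r + 1) → L) (y : L), x ≠ 0 ∧ a * y ^ n = normForm f x

/-- For some `σ ∈ G_K`: if `σ ^ (m j)` fixes a root of `f` and `1 ≤ j ≤ r`, then `M ∣ m`.  In terms of the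
lengths `o` of the cycles of `σ` on the roots of `f`: `M` divides `o / gcd(o, j)` for `j = 1, …, r`. -/
def LongCycles (M r : ℕ) {K : Type} [Field K] (f : K[X]) : Prop :=
  ∃ σ : AlgebraicClosure K ≃ₐ[K] AlgebraicClosure K, ∀ θ : AlgebraicClosure K, aeval θ f = 0 →
    ∀ m j : ℕ, 1 ≤ j → j ≤ r → (σ ^ (m * j)) θ = θ → M ∣ m

/-- `V_a`, and all varieties of dimension `r` with a dominant rational map to `V_a`, are of general type,
over every algebraically closed field `Ω ⊇ K`.  Such a variety over `Ω` is given by its function field
`F`, which contains a point `(x, y)` of `V_a` such that the `x_i / x_0` are a transcendence basis of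
`F/Ω`.  `GeneralType Ω F r`: there are `r + 1` pluricanonical forms (of some weight `N > 0`) which are
regular at all prime divisors of all models of `F`, and whose ratios are `r` algebraically independent
functions. -/
def OfGeneralType (r n : ℕ) {K : Type} [Field K] (a : K) (f : K[X]) : Prop :=
  ∀ (Ω F : Type) [Field Ω] [IsAlgClosed Ω] [Algebra K Ω] [Field F] [Algebra Ω F] [Algebra K F]
    [IsScalarTower K Ω F] (x : Fin (r + 1) → F) (y : F), x 0 ≠ 0 →
    IsTranscendenceBasis Ω (fun i : Fin r => x i.succ / x 0) →
    algebraMap K F a * y ^ n = normForm (f.map (algebraMap K F)) x →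
      Pool.Agent.W602.GT.GeneralType Ω F r

/-- The integers `a` of `K` which do not have the following property: for all `n` divisible by `M` and all
algebraic extensions `L/K` such that `V_a` has a point over `L`, there is a finite extension `E` of `K`
inside `L` of degree divisible by `M`. -/
def Exceptional (M r : ℕ) {K : Type} [Field K] (f : K[X]) : Set (𝓞 K) :=
  {a | ¬ ∀ n : ℕ, M ∣ n → ∀ (L : Type) [Field L] [Algebra K L] [Algebra.IsAlgebraic K L],
    HasPoint r n (algebraMap K L a) (f.map (algebraMap K L)) →
      ∃ E : IntermediateField K L, FiniteDimensional K E ∧ M ∣ Module.finrank K E}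

/-- Density zero: for every `ε > 0` there is an ideal `I` of `R` of finite index such that `E` lies
in at most `ε #(R/I)` residue classes modulo `I`. -/
def DensityZero {R : Type} [CommRing R] (E : Set R) : Prop :=
  ∀ ε : ℝ, 0 < ε → ∃ I : Ideal R, Finite (R ⧸ I) ∧
    (Set.ncard ((Ideal.Quotient.mk I) '' E) : ℝ) ≤ ε * Nat.card (R ⧸ I)

/-- For every number field `K` and every separable `f ∈ K[T]`:
(0) the norm form is `c^r ∏ (x_0 + θ x_1 + ⋯ + θ^r x_r)` over algebraically closed fields;
(1) if `n` divides the degree `d` of `f`, `(n - 1) d / n ≥ r + 2` and `a ≠ 0`, then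
`V_a : a yⁿ = N_f(x_0, …, x_r)` is of general type;
(2) if `M ∣ d` and `f` satisfies the condition `LongCycles M r f` or is irreducible with degree a power
of the prime number `M > r`, then for all `a ∈ O_K` outside a set of density zero and all `n` divisible by
`M` every algebraic extension of `K` over which `V_a` has a point contains a finite extension of `K` of
degree divisible by `M`; in particular `V_a(L) = ∅` for all finite extensions `L/K` with `M ∤ [L : K]`. -/
theorem result (K : Type) [Field K] [NumberField K] (r : ℕ) (f : K[X]) (hf : f.Separable) :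
    (∀ (Ω : Type) [Field Ω] [IsAlgClosed Ω] [Algebra K Ω] (x : Fin (r + 1) → Ω),
      normForm (f.map (algebraMap K Ω)) x = algebraMap K Ω f.leadingCoeff ^ r *
        ((f.map (algebraMap K Ω)).roots.map fun θ => ∑ i : Fin (r + 1), x i * θ ^ (i : ℕ)).prod) ∧
    (∀ n : ℕ, n ∣ f.natDegree → r + 2 ≤ (n - 1) * (f.natDegree / n) → ∀ a : K, a ≠ 0 →
      OfGeneralType r n a f) ∧
    ∀ M : ℕ, M ∣ f.natDegree →
      (LongCycles M r f ∨ (Irreducible f ∧ M.Prime ∧ r < M ∧ ∃ s : ℕ, f.natDegree = M ^ s)) →
      DensityZero (Exceptional M r f) ∧
      ∀ a ∉ Exceptional M r f, ∀ n : ℕ, M ∣ n → ∀ (L : Type) [Field L] [Algebra K L]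
        [FiniteDimensional K L], ¬ M ∣ Module.finrank K L →
          ¬ HasPoint r n (algebraMap K L a) (f.map (algebraMap K L)) := by
  refine ⟨fun Ω _ _ _ x => ?_, fun n hn hgt a ha Ω F _ _ _ _ _ _ _ x y hx0 hx heq => ?_,
    fun M hMd h => ⟨?_, ?_⟩⟩
  · have h1 := Pool.Agent.U218.NH.normForm_prod (f.map (algebraMap K Ω)) (IsAlgClosed.splits _) x
    rw [leadingCoeff_map] at h1
    exact h1
  · obtain ⟨δ, hδ⟩ := hn
    have hn0 : 0 < n := by
      rcases Nat.eq_zero_or_pos n with h0 | h0
      · subst h0
        simp at hgt
      · exact h0
    rw [hδ, Nat.mul_div_cancel_left _ hn0] at hgt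
    exact Pool.Agent.U218.NH.gt_main r n δ hn0 f hf hδ hgt a ha x hx0 hx y heq
  · have hσ : LongCycles M r f := by
      rcases h with h | ⟨hirr, hM, hrM, s, hs⟩
      · exact h
      · have hs1 : 1 ≤ s := by
          by_contra h0
          have h1 : s = 0 := by omega
          rw [h1, pow_zero] at hs
          rw [hs] at hMd
          exact hM.one_lt.ne' (Nat.dvd_one.1 hMd)
        exact Pool.Agent.U218.NH.exists_sigma f hirr M s r hM hs hs1 hrM
    obtain ⟨σ, hσ⟩ := hσ
    intro ε hε
    obtain ⟨I, hI, hIE⟩ := Pool.Agent.U218.NH.dens M r f hf hMd σ hσ ε hε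
    refine ⟨I, hI, le_trans ?_ hIE⟩
    have hsub : (Exceptional M r f : Set (𝓞 K)) ⊆
        {a : 𝓞 K | ¬ Pool.Agent.U218.NH.Good M r f (algebraMap (𝓞 K) K a)} := by
      intro a ha hgood
      apply ha
      rintro n hn L _ _ _ ⟨x, y, hx, heq⟩
      let S : Set L := Set.range x ∪ {y}
      have hS : S.Finite := (Set.finite_range x).union (Set.finite_singleton y)
      let E : IntermediateField K L := IntermediateField.adjoin K S
      have hfin : FiniteDimensional K E := by
        have : Finite S := hS
        exact IntermediateField.finiteDimensional_adjoin fun z _ =>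
          (Algebra.IsAlgebraic.isAlgebraic z).isIntegral
      refine ⟨E, hfin, ?_⟩
      let x' : Fin (r + 1) → E := fun i =>
        ⟨x i, IntermediateField.subset_adjoin K S (Or.inl ⟨i, rfl⟩)⟩
      let y' : E := ⟨y, IntermediateField.subset_adjoin K S (Or.inr rfl)⟩
      refine hgood E x' ?_ y' n hn ?_
      · intro h0
        apply hx
        funext i
        exact congrArg (algebraMap E L) (congrFun h0 i)
      · apply (algebraMap E L).injective
        have h1 := Pool.Agent.U218.NH.normForm_map (algebraMap E L) (f.map (algebraMap K E))
          (natDegree_map_eq_of_injective (algebraMap E L).injective _) x'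
        rw [← h1, Polynomial.map_map, ← IsScalarTower.algebraMap_eq, map_mul, map_pow,
          ← IsScalarTower.algebraMap_apply]
        exact heq
    exact_mod_cast Set.ncard_le_ncard (Set.image_mono hsub) (Set.toFinite _)
  · intro a ha n hn L _ _ _ hML hpt
    have h1 : ∀ n : ℕ, M ∣ n → ∀ (L : Type) [Field L] [Algebra K L] [Algebra.IsAlgebraic K L],
        HasPoint r n (algebraMap K L a) (f.map (algebraMap K L)) →
        ∃ E : IntermediateField K L, FiniteDimensional K E ∧ M ∣ Module.finrank K E := by
      by_contra hcon
      exact ha hcon
    obtain ⟨E, hE, hME⟩ := h1 n hn L hpt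
    apply hML
    rw [← Module.finrank_mul_finrank K E L]
    exact Dvd.dvd.mul_right hME _

end Pool.Agent.Results.MP_7ede32_ag.PointsOfDivisibleDegree
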