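import Mathlib
import Pool.Agent.U707.SL.Off

set_option autoImplicit false

/-!
# One closed subset and one bound for families of rational points given by iterated recurrences

Let `X` be an integral closed subvariety of projective `n`-space over a number field `k`, given by
the forms `F ∈ FF` of degree at most `d` (the ideal generated by `FF` is prime). We consider families
of points of `X(L)`, for arbitrary extension fields `L` of `k`, indexed by arbitrary groups `H`, which
are given by iterated recurrences of complexity `(s, r, e)` (`IterVec s r e x`): there are matrices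
`X_1(h), …, X_s(h)` in `GL_r(L)` such that for every `g` in `H` the entries of `X_l(g h) X_l(h)⁻¹` are
for all `h` the values of polynomials over `L`, of degree at most `e` in each variable and depending
only on `g`, at the entries of `X_i(h)`, `X_i(h)⁻¹`, `i < l`, and the homogeneous coordinates
`x_j(h)` are the values of such polynomials at the entries of all `X_i(h)`, `X_i(h)⁻¹`. For `s = 1`
these are the orbits of groups of matrices, and for the integers the solutions of linear recurrences
with constant coefficients; `s = 2` allows linear recurrences whose coefficients are such solutions,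
and so on.

**Theorem.** There is a number `B n d s r e` (depending on nothing else) such that the following are
equivalent:

* `X` is not uniruled (for instance, `X` is of general type and of positive dimension);
* for all `s, r, e` there is ONE proper closed subset `Z = X ∩ {G = 0}` of `X`, defined over `k`, such
  that for all extension fields `L` of `k` and all groups `H` every family of points of `X(L)` of
  complexity `(s, r, e)` has at most `B n d s r e` points outside of `Z`;
* for each `r` there is one proper closed subset `Z` of `X` such that for all number fields `L ⊇ k`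
  every sequence `M A ^ m v`, `m ∈ ℤ`, of points of `X(L)` with `A` in `GL_r(L)` has only finitely many
  points outside of `Z`.

So the conclusion of Lang's strong conjecture (one proper closed subset for all extensions of `k`)
holds for the points of such families if `X` is of general type, with a bound for the number of the
points outside of `Z` which is independent of `X`, `k` and `L`; and it fails, even for linear
recurrence sequences, for every uniruled `X`.

Method. By the theory of iterated recurrences of the library (helper377, helper393 and others) all
but at most `B` points of a family are on rational curves in `X` of degree at most `B`, where `B`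
depends only on `n, d, s, r, e`. On a variety which is not uniruled the rational curves of bounded
degree lie in one proper closed subset. The converse is from the library (`Y377/ST`, `TH717/GO`).
-/

namespace Pool.Agent.Results.MP_7ede32_ag.StrongLangIteratedRecurrences

open MvPolynomial Pool.Agent.Y377.ST Pool.Agent.U707.SL
open Pool.Agent.H533R3.SL (Uniruled)

/-- **Strong Lang for iterated recurrences, with a bound independent of the variety.** -/
theorem result : ∃ B : ℕ → ℕ → ℕ → ℕ → ℕ → ℕ,
    ∀ (k : Type) [Field k] [NumberField k] (n d : ℕ) (FF : Finset (MvPolynomial (Fin (n + 1)) k)),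
      (∀ F ∈ FF, ∃ c, c ≤ d ∧ F.IsHomogeneous c) →
      (Ideal.span (FF : Set (MvPolynomial (Fin (n + 1)) k))).IsPrime →
      List.TFAE [
        ¬ Uniruled (Ideal.span (FF : Set (MvPolynomial (Fin (n + 1)) k))),
        ∀ s r e : ℕ, ∃ G : MvPolynomial (Fin (n + 1)) k, (∃ c, G.IsHomogeneous c) ∧
          G ∉ Ideal.span (FF : Set (MvPolynomial (Fin (n + 1)) k)) ∧
          ∀ (L : Type) [Field L] [Algebra k L] (H : Type) [Group H] (x : H → Fin (n + 1) → L),
            IterVec s r e x → (∀ h, ∀ F ∈ FF, aeval (x h) F = 0) →
            (ptsOff G x).encard ≤ B n d s r e,
        ∀ r : ℕ, ∃ G : MvPolynomial (Fin (n + 1)) k, (∃ c, G.IsHomogeneous c) ∧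
          G ∉ Ideal.span (FF : Set (MvPolynomial (Fin (n + 1)) k)) ∧
          ∀ (L : Type) [Field L] [NumberField L] [Algebra k L]
            (M : Matrix (Fin (n + 1)) (Fin r) L) (A : Matrix.GeneralLinearGroup (Fin r) L)
            (v : Fin r → L) (x : ℤ → Fin (n + 1) → L),
            (∀ m : ℤ, x m = M.mulVec (((A ^ m : Matrix.GeneralLinearGroup (Fin r) L) :
              Matrix (Fin r) (Fin r) L).mulVec v)) →
            (∀ m, ∀ F ∈ FF, aeval (x m) F = 0) → (ptsOff G x).Finite] := by
  refine ⟨Pool.Agent.R393.UH.TT, fun k _ _ n d FF hFF hprime => ?_⟩
  tfae_have 1 → 2 := fun hnu s r e => strong_iter FF hFF hprime hnu s r e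
  tfae_have 2 → 3 := by
    intro h r
    obtain ⟨G, hG1, hG2, hG3⟩ := h 1 r 1
    refine ⟨G, hG1, hG2, fun L _ _ _ M A v x hx hX => ?_⟩
    have h1 := hG3 L (Multiplicative ℤ) (fun m => x (Multiplicative.toAdd m)) (by
      have h2 := iterVec_zpow M A v
      have h3 : (fun m : Multiplicative ℤ => x (Multiplicative.toAdd m)) =
          fun m : Multiplicative ℤ => M.mulVec
            (((A ^ (Multiplicative.toAdd m) : Matrix.GeneralLinearGroup (Fin r) L) :
              Matrix (Fin r) (Fin r) L).mulVec v) := funext fun m => hx _
      rw [h3]
      exact h2) (fun m F hF => hX _ F hF)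
    refine (Set.finite_of_encard_le_coe h1).subset ?_
    rintro P ⟨m, h0, h2, h3⟩
    exact ⟨Multiplicative.ofAdd m, h0, h2, h3⟩
  tfae_have 3 → 1 := by
    intro h hu
    obtain ⟨r, hr⟩ := Pool.Agent.TH717.GO.converse FF hu
    obtain ⟨G, hG1, hG2, hG3⟩ := h r
    obtain ⟨K, i1, i2, i3, ρ, M, v, -, h2, h3⟩ := hr G hG1 hG2
    have h4 := hG3 K M (ρ (Multiplicative.ofAdd 1)) v _ (fun m => rfl) (fun m F hF => by
      have h5 := h2 (Multiplicative.ofAdd m) F hF
      have h6 : (Multiplicative.ofAdd m : Multiplicative ℤ) = (Multiplicative.ofAdd 1) ^ m := by
        rw [← ofAdd_zsmul, smul_eq_mul, mul_one]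
      unfold Pool.Agent.TH717.GO.orb at h5
      rw [h6, map_zpow] at h5
      exact h5)
    apply h3
    change (ptsOff G (Pool.Agent.TH717.GO.orb M ρ v)).Finite
    rw [ptsOff_zpow]
    exact h4
  tfae_finish

end Pool.Agent.Results.MP_7ede32_ag.StrongLangIteratedRecurrences
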